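import Mathlib
import Pool.Agent.Helper9.NS
import Pool.Agent.Helper40.CX.H94VQ.MoveLift
import Pool.Agent.Helper40.CX.H70VP.Basic
import Pool.Agent.Helper40.CX.H17FF.Degree
import Pool.Agent.Helper40.CX.Good

namespace CX

/-!
# The Riemann-Hurwitz inequality for double covers
-/

namespace VP

open VC VQ Function IntermediateField

universe u

section rh

variable {k F F₁ : Type u} [Field k] [IsAlgClosed k] [Good k] [Field F] [Algebra k F]
  [Field F₁] [Algebra k F₁] [Algebra F F₁] [IsScalarTower k F F₁]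
  (hF : IsFunctionField k F) (hF₁ : IsFunctionField k F₁)

/-- Every place extends. -/
theorem exists_res (P : Place k F) : ∃ Q : Place k F₁, res hF hF₁ Q = P := by
  obtain ⟨π, hπ0, hπ⟩ := exists_uniformizer hF P
  have hπn : π ∈ P.ring.nonunits := by
    rw [← ord_pos_iff hF P hπ0]; omega
  let i : F →+* F₁ := algebraMap F F₁
  let A : Subring F₁ := P.ring.toSubring.map i
  let I : Ideal A :=
    { carrier := {a | ∃ x ∈ P.ring.nonunits, i x = a.1}
      add_mem' := by
        rintro a b ⟨x, hx, hxa⟩ ⟨y, hy, hyb⟩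
        refine ⟨x + y, ?_, by rw [map_add, hxa, hyb]; rfl⟩
        rw [ValuationSubring.mem_nonunits_iff] at hx hy ⊢
        exact Valuation.map_add_lt _ hx hy
      zero_mem' := ⟨0, by rw [ValuationSubring.mem_nonunits_iff, map_zero]; exact zero_lt_one, by
        rw [map_zero]; rfl⟩
      smul_mem' := by
        rintro ⟨a, y, hy, hya⟩ b ⟨x, hx, hxb⟩
        refine ⟨y * x, ?_, by rw [map_mul, hxb]; exact congrArg (· * b.1) hya⟩
        rw [ValuationSubring.mem_nonunits_iff] at hx ⊢
        rw [map_mul]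
        have h1 : P.ring.valuation y ≤ 1 := (P.ring.valuation_le_one_iff y).mpr hy
        exact mul_lt_one_of_nonneg_of_lt_one_right h1 zero_le hx }
  obtain ⟨Q, hQ1, hQ2⟩ := FF.exists_place_of_subring (k := k) A (fun a => ⟨algebraMap k F a,
      P.algebraMap_mem a, (IsScalarTower.algebraMap_apply k F F₁ a).symm⟩) I (by
      rw [Ne, Ideal.eq_top_iff_one]
      rintro ⟨x, hx, hx1⟩
      have h2 : x = 1 := i.injective (by rw [hx1, map_one]; rfl)
      rw [h2, ValuationSubring.mem_nonunits_iff, map_one] at hx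
      exact lt_irrefl _ hx)
    ⟨⟨i π, π, ValuationSubring.nonunits_subset hπn, rfl⟩, ⟨π, hπn, rfl⟩, fun h => hπ0 (i.injective (by
      rw [map_zero]; exact congrArg Subtype.val h))⟩
  refine ⟨Q, ?_⟩
  ext x
  change i x ∈ Q.ring ↔ x ∈ P.ring
  constructor
  · intro h
    by_contra hx
    have hx0 : x ≠ 0 := by
      rintro rfl
      exact hx P.ring.zero_mem
    have h1 : x⁻¹ ∈ P.ring.nonunits := by
      rw [ValuationSubring.mem_nonunits_iff, map_inv₀]
      have h2 : 1 < P.ring.valuation x := by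
        rw [← not_le, P.ring.valuation_le_one_iff]
        exact hx
      exact inv_lt_one_of_one_lt₀ h2
    have h2 := hQ2 ⟨i x⁻¹, x⁻¹, ValuationSubring.nonunits_subset h1, rfl⟩ ⟨x⁻¹, h1, rfl⟩
    change i x⁻¹ ∈ Q.ring.nonunits at h2
    rw [ValuationSubring.mem_nonunits_iff, map_inv₀, map_inv₀] at h2
    have h3 : Q.ring.valuation (i x) ≤ 1 := (Q.ring.valuation_le_one_iff _).mpr h
    have h4 : Q.ring.valuation (i x) ≠ 0 := by
      rw [Ne, map_eq_zero, map_eq_zero]
      exact hx0
    have h5 : 1 ≤ (Q.ring.valuation (i x))⁻¹ := (one_le_inv₀ (zero_lt_iff.mpr h4)).mpr h3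
    exact absurd h2 (not_lt.mpr h5)
  · intro hx
    exact hQ1 _ ⟨x, hx, rfl⟩

lemma ord_res (Q : Place k F₁) :
    ∃ e : ℤ, 0 < e ∧ ∀ x : F, x ≠ 0 →
      ord Q.ring (algebraMap F F₁ x) = e * ord (res hF hF₁ Q).ring x :=
  ord_comap hF hF₁ (IsScalarTower.toAlgHom k F F₁) Q

/-- the ramification index -/
noncomputable def ram (Q : Place k F₁) : ℤ := (ord_res hF hF₁ Q).choose

lemma ram_pos (Q : Place k F₁) : 0 < ram hF hF₁ Q := (ord_res hF hF₁ Q).choose_spec.1

lemma ord_ram (Q : Place k F₁) (x : F) (hx : x ≠ 0) :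
    ord Q.ring (algebraMap F F₁ x) = ram hF hF₁ Q * ord (res hF hF₁ Q).ring x :=
  (ord_res hF hF₁ Q).choose_spec.2 x hx

lemma finite_res (P : Place k F) : {Q : Place k F₁ | res hF hF₁ Q = P}.Finite := by
  obtain ⟨π, hπ0, hπ⟩ := exists_uniformizer hF P
  have hπn : π ∈ P.ring.nonunits := by
    rw [← ord_pos_iff hF P hπ0]; omega
  have ht := transcendental_of_mem_nonunits P hπ0 hπn
  have htE : Transcendental k (algebraMap F F₁ π) :=
    (transcendental_algebraMap_iff (algebraMap F F₁).injective).mpr ht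
  apply (finite_zeros hF₁ htE).subset
  intro Q hQ
  rw [Set.mem_ofPred_eq] at hQ ⊢
  rw [← hQ] at hπn
  change π ∈ (Q.ring.comap _).nonunits at hπn
  rw [mem_nonunits_comap] at hπn
  exact hπn

/-- The pullback of a divisor. -/
noncomputable def pull (D : Place k F →₀ ℤ) : Place k F₁ →₀ ℤ :=
  Finsupp.onFinset
    ((Set.Finite.biUnion D.support.finite_toSet (fun P _ => finite_res hF hF₁ P)).toFinset)
    (fun Q => ram hF hF₁ Q * D (res hF hF₁ Q)) (by
      intro Q hQ
      rw [Set.Finite.mem_toFinset, Set.mem_iUnion₂]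
      refine ⟨res hF hF₁ Q, ?_, rfl⟩
      rw [Finset.mem_coe, Finsupp.mem_support_iff]
      intro h
      rw [h, mul_zero] at hQ
      exact hQ rfl)

lemma pull_apply (D : Place k F →₀ ℤ) (Q : Place k F₁) :
    pull hF hF₁ D Q = ram hF hF₁ Q * D (res hF hF₁ Q) := rfl

end rh

end VP

end CX
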